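import Pool.Agent.Lib.MP_aa7e4d_lc.Interfaces

/-!
# SEQ: the configuration exists in every generic frame
-/

namespace Pool.Agent.SFC.H7

variable {N : Type} (F : Frame N)

/-- a new element without parents -/
private theorem pick0 (hF : F.Generic) (S : Finset N) (κ : Kind) (U : Set N) :
    ∃ v, v ∉ S ∧ F.kind v = κ ∧ (∀ i, F.f i v = v) ∧ ∀ u ∈ S, (F.R v u ↔ u ∈ U) := by
  obtain ⟨v, hv, hk, h0, -, hR⟩ := hF S κ (fun _ => none) U (by intro i y h; cases h)
  exact ⟨v, hv, hk, fun i => h0 i rfl, hR⟩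

/-- a new point with the parent line `e` -/
private theorem pickp (hF : F.Generic) (S : Finset N) (κ : Kind) (U : Set N) (e : N)
    (he : e ∈ S) (hke : F.kind e = .L) (hκ : ok κ .p .L) :
    ∃ v, v ∉ S ∧ F.kind v = κ ∧ F.f .p v = e ∧ ∀ u ∈ S, (F.R v u ↔ u ∈ U) := by
  obtain ⟨v, hv, hk, -, h1, hR⟩ := hF S κ (fun i => if i = .p then some e else none) U (by
    intro i y h
    by_cases hi : i = .p
    · subst hi
      rw [if_pos rfl] at h
      obtain rfl := Option.some.inj h
      exact ⟨he, by rw [hke]; exact hκ⟩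
    · rw [if_neg hi] at h
      cases h)
  exact ⟨v, hv, hk, h1 .p e (if_pos rfl), hR⟩

/-- the conditions on one quadruple `(c, a, b, h)` -/
private structure P (e : N) (q : N × N × N × N) : Prop where
  kc : F.kind q.1 = .A
  fc : ∀ i, F.f i q.1 = q.1
  ka : F.kind q.2.1 = .A
  pa : F.f .p q.2.1 = e
  kb : F.kind q.2.2.1 = .B
  pb : F.f .p q.2.2.1 = e
  kh : F.kind q.2.2.2 = .B
  fh : ∀ i, F.f i q.2.2.2 = q.2.2.2
  ca : ¬ F.R q.1 q.2.1
  cb : ¬ F.R q.1 q.2.2.1
  ch : ¬ F.R q.1 q.2.2.2
  ab : ¬ F.R q.2.1 q.2.2.1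
  ah : ¬ F.R q.2.1 q.2.2.2
  bh : ¬ F.R q.2.2.1 q.2.2.2
  ea : ¬ F.R e q.2.1
  eb : ¬ F.R e q.2.2.1
  ec : ¬ F.R e q.1

/-- the conditions on two quadruples, the first of which is earlier -/
private structure Q (q q' : N × N × N × N) : Prop where
  nc : q.1 ≠ q'.1
  na : q.2.1 ≠ q'.2.1
  nb : q.2.2.1 ≠ q'.2.2.1
  nh : q.2.2.2 ≠ q'.2.2.2
  cc : ¬ F.R q.1 q'.1
  ca : ¬ F.R q.1 q'.2.1
  cb : ¬ F.R q.1 q'.2.2.1
  ch : ¬ F.R q.1 q'.2.2.2
  ac : ¬ F.R q'.1 q.2.1
  aa : ¬ F.R q.2.1 q'.2.1
  ab : F.R q.2.1 q'.2.2.1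
  ah : ¬ F.R q.2.1 q'.2.2.2
  bc : ¬ F.R q'.1 q.2.2.1
  ba : ¬ F.R q'.2.1 q.2.2.1
  bb : ¬ F.R q.2.2.1 q'.2.2.1
  bh : ¬ F.R q.2.2.1 q'.2.2.2
  hc : ¬ F.R q'.1 q.2.2.2
  ha : ¬ F.R q'.2.1 q.2.2.2
  hb : ¬ F.R q'.2.2.1 q.2.2.2
  hh : ¬ F.R q.2.2.2 q'.2.2.2

/-- SEQ -/
theorem seq : SeqStatement := by
  intro N F hF
  classical
  obtain ⟨e, -, hke, hfe, -⟩ := pick0 F hF ∅ .L ∅
  obtain ⟨q, hP, hQ⟩ := exists_seq_of_forall_finset_exists (P F e) (Q F) (by
    intro s hs
    -- all elements used so far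
    let S : Finset N := insert e (s.image (fun q => q.1) ∪ s.image (fun q => q.2.1) ∪
      s.image (fun q => q.2.2.1) ∪ s.image (fun q => q.2.2.2))
    have heS : e ∈ S := Finset.mem_insert_self _ _
    have hS1 : ∀ q ∈ s, q.1 ∈ S := fun q hq => by
      simp only [S, Finset.mem_insert, Finset.mem_union, Finset.mem_image]
      exact Or.inr (Or.inl (Or.inl (Or.inl ⟨q, hq, rfl⟩)))
    have hS2 : ∀ q ∈ s, q.2.1 ∈ S := fun q hq => by
      simp only [S, Finset.mem_insert, Finset.mem_union, Finset.mem_image]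
      exact Or.inr (Or.inl (Or.inl (Or.inr ⟨q, hq, rfl⟩)))
    have hS3 : ∀ q ∈ s, q.2.2.1 ∈ S := fun q hq => by
      simp only [S, Finset.mem_insert, Finset.mem_union, Finset.mem_image]
      exact Or.inr (Or.inl (Or.inr ⟨q, hq, rfl⟩))
    have hS4 : ∀ q ∈ s, q.2.2.2 ∈ S := fun q hq => by
      simp only [S, Finset.mem_insert, Finset.mem_union, Finset.mem_image]
      exact Or.inr (Or.inr ⟨q, hq, rfl⟩)
    clear_value S
    obtain ⟨c, hcS, hkc, hfc, hRc⟩ := pick0 F hF S .A ∅
    obtain ⟨a, haS, hka, hpa, hRa⟩ := pickp F hF (insert c S) .A ∅ e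
      (Finset.mem_insert_of_mem heS) hke trivial
    obtain ⟨b, hbS, hkb, hpb, hRb⟩ := pickp F hF (insert a (insert c S)) .B
      {x | ∃ q ∈ s, q.2.1 = x} e
      (Finset.mem_insert_of_mem (Finset.mem_insert_of_mem heS)) hke trivial
    obtain ⟨h, hhS, hkh, hfh, hRh⟩ := pick0 F hF (insert b (insert a (insert c S))) .B ∅
    simp only [Set.mem_empty_iff_false, iff_false] at hRc hRa hRh
    simp only [Set.mem_ofPred_eq] at hRb
    simp only [Finset.mem_insert, not_or] at haS hbS hhS
    simp only [Finset.forall_mem_insert] at hRa hRb hRh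
    obtain ⟨hRac, hRa⟩ := hRa
    obtain ⟨hRba, hRbc, hRb⟩ := hRb
    obtain ⟨hRhb, hRha, hRhc, hRh⟩ := hRh
    obtain ⟨hac, haS⟩ := haS
    obtain ⟨hba, hbc, hbS⟩ := hbS
    obtain ⟨hhb, hha, hhc, hhS⟩ := hhS
    -- the `R`-neighbours of `b` are exactly the earlier `a`
    have hbe : ¬ F.R b e := by
      rw [hRb e heS]
      rintro ⟨q, hq, hqe⟩
      have h1 := (hs q hq).ka
      rw [hqe, hke] at h1
      cases h1
    have hba' : ¬ F.R b a := by
      rw [hRba]
      rintro ⟨q, hq, hqe⟩
      exact haS (hqe ▸ hS2 q hq)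
    have hbc' : ¬ F.R b c := by
      rw [hRbc]
      rintro ⟨q, hq, hqe⟩
      exact hcS (hqe ▸ hS2 q hq)
    refine ⟨(c, a, b, h), ?_, ?_⟩
    · exact {
        kc := hkc
        fc := hfc
        ka := hka
        pa := hpa
        kb := hkb
        pb := hpb
        kh := hkh
        fh := hfh
        ca := fun H => hRac (F.R_symm _ _ H)
        cb := fun H => hbc' (F.R_symm _ _ H)
        ch := fun H => hRhc (F.R_symm _ _ H)
        ab := fun H => hba' (F.R_symm _ _ H)
        ah := fun H => hRha (F.R_symm _ _ H)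
        bh := fun H => hRhb (F.R_symm _ _ H)
        ea := fun H => hRa e heS (F.R_symm _ _ H)
        eb := fun H => hbe (F.R_symm _ _ H)
        ec := fun H => hRc e heS (F.R_symm _ _ H) }
    · intro q hq
      have hqP := hs q hq
      exact {
        nc := fun H => hcS (by rw [← show q.1 = c from H]; exact hS1 q hq)
        na := fun H => haS (by rw [← show q.2.1 = a from H]; exact hS2 q hq)
        nb := fun H => hbS (by rw [← show q.2.2.1 = b from H]; exact hS3 q hq)
        nh := fun H => hhS (by rw [← show q.2.2.2 = h from H]; exact hS4 q hq)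
        cc := fun H => hRc _ (hS1 q hq) (F.R_symm _ _ H)
        ca := fun H => hRa _ (hS1 q hq) (F.R_symm _ _ H)
        cb := fun H => by
          have H1 := F.R_symm _ _ H
          rw [hRb _ (hS1 q hq)] at H1
          obtain ⟨q', hq', hqe⟩ := H1
          have h1 := (hs q' hq').pa
          have h2 : F.f .p q'.2.1 = q'.2.1 := by rw [hqe]; exact hqP.fc .p
          rw [h2] at h1
          have h3 := (hs q' hq').ka
          rw [h1, hke] at h3
          cases h3
        ch := fun H => hRh _ (hS1 q hq) (F.R_symm _ _ H)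
        ac := fun H => hRc _ (hS2 q hq) H
        aa := fun H => hRa _ (hS2 q hq) (F.R_symm _ _ H)
        ab := F.R_symm _ _ ((hRb _ (hS2 q hq)).mpr ⟨q, hq, rfl⟩)
        ah := fun H => hRh _ (hS2 q hq) (F.R_symm _ _ H)
        bc := fun H => hRc _ (hS3 q hq) H
        ba := fun H => hRa _ (hS3 q hq) H
        bb := fun H => by
          have H1 := F.R_symm _ _ H
          rw [hRb _ (hS3 q hq)] at H1
          obtain ⟨q', hq', hqe⟩ := H1
          have h3 := (hs q' hq').ka
          rw [hqe, hqP.kb] at h3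
          cases h3
        bh := fun H => hRh _ (hS3 q hq) (F.R_symm _ _ H)
        hc := fun H => hRc _ (hS4 q hq) H
        ha := fun H => hRa _ (hS4 q hq) H
        hb := fun H => by
          have H1 : F.R b q.2.2.2 := H
          rw [hRb _ (hS4 q hq)] at H1
          obtain ⟨q', hq', hqe⟩ := H1
          have h3 := (hs q' hq').ka
          rw [hqe, hqP.kh] at h3
          cases h3
        hh := fun H => hRh _ (hS4 q hq) (F.R_symm _ _ H) })
  have inj : ∀ (g : N × N × N × N → N), (∀ m n, m < n → g (q m) ≠ g (q n)) →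
      Function.Injective (fun n => g (q n)) := by
    intro g hg m n hmn
    rcases lt_trichotomy m n with h | h | h
    · exact absurd hmn (hg m n h)
    · exact h
    · exact absurd hmn.symm (hg n m h)
  refine ⟨e, fun n => (q n).1, fun n => (q n).2.1, fun n => (q n).2.2.1,
    fun n => (q n).2.2.2, ?_⟩
  exact {
    kind_e := hke
    f_e := hfe
    kind_c := fun n => (hP n).kc
    f_c := fun n => (hP n).fc
    kind_a := fun n => (hP n).ka
    p_a := fun n => (hP n).pa
    kind_b := fun n => (hP n).kb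
    p_b := fun n => (hP n).pb
    kind_h := fun n => (hP n).kh
    f_h := fun n => (hP n).fh
    inj_c := inj (fun q => q.1) (fun m n h => (hQ m n h).nc)
    inj_a := inj (fun q => q.2.1) (fun m n h => (hQ m n h).na)
    inj_b := inj (fun q => q.2.2.1) (fun m n h => (hQ m n h).nb)
    inj_h := inj (fun q => q.2.2.2) (fun m n h => (hQ m n h).nh)
    R_ab := fun i j => by
      rcases lt_trichotomy i j with h | h | h
      · exact ⟨fun _ => h, fun _ => (hQ i j h).ab⟩
      · subst h
        exact ⟨fun H => absurd H (hP i).ab, fun H => absurd H (lt_irrefl _)⟩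
      · exact ⟨fun H => absurd H (hQ j i h).ba, fun H => absurd H (lt_asymm h)⟩
    R_aa := fun i j => by
      rcases lt_trichotomy i j with h | h | h
      · exact (hQ i j h).aa
      · subst h
        exact F.R_irrefl _
      · exact fun H => (hQ j i h).aa (F.R_symm _ _ H)
    R_bb := fun i j => by
      rcases lt_trichotomy i j with h | h | h
      · exact (hQ i j h).bb
      · subst h
        exact F.R_irrefl _
      · exact fun H => (hQ j i h).bb (F.R_symm _ _ H)
    R_cc := fun i j => by
      rcases lt_trichotomy i j with h | h | h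
      · exact (hQ i j h).cc
      · subst h
        exact F.R_irrefl _
      · exact fun H => (hQ j i h).cc (F.R_symm _ _ H)
    R_hh := fun i j => by
      rcases lt_trichotomy i j with h | h | h
      · exact (hQ i j h).hh
      · subst h
        exact F.R_irrefl _
      · exact fun H => (hQ j i h).hh (F.R_symm _ _ H)
    R_ca := fun i j => by
      rcases lt_trichotomy i j with h | h | h
      · exact (hQ i j h).ca
      · subst h
        exact (hP i).ca
      · exact (hQ j i h).ac
    R_cb := fun i j => by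
      rcases lt_trichotomy i j with h | h | h
      · exact (hQ i j h).cb
      · subst h
        exact (hP i).cb
      · exact (hQ j i h).bc
    R_ch := fun i j => by
      rcases lt_trichotomy i j with h | h | h
      · exact (hQ i j h).ch
      · subst h
        exact (hP i).ch
      · exact (hQ j i h).hc
    R_ah := fun i j => by
      rcases lt_trichotomy i j with h | h | h
      · exact (hQ i j h).ah
      · subst h
        exact (hP i).ah
      · exact (hQ j i h).ha
    R_bh := fun i j => by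
      rcases lt_trichotomy i j with h | h | h
      · exact (hQ i j h).bh
      · subst h
        exact (hP i).bh
      · exact (hQ j i h).hb
    R_ea := fun i => (hP i).ea
    R_eb := fun i => (hP i).eb
    R_ec := fun i => (hP i).ec }

end Pool.Agent.SFC.H7
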