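import Pool.Agent.Lib.MP_aa7e4d_lc.Interfaces

/-!
# TREE: a node with infinitely many good successors
-/

namespace Pool.Agent.SFC.H7

/-- the path which always continues by a bad successor -/
private def path (g : List ℕ → ℕ) : ℕ → List ℕ
  | 0 => []
  | k + 1 => g (path g k) :: path g k

private theorem path_suffix (g : List ℕ → ℕ) {i j : ℕ} (h : i ≤ j) :
    path g i <:+ path g j := by
  induction j, h using Nat.le_induction with
  | base => exact List.suffix_refl _
  | succ j _ ih => exact ih.trans (List.suffix_cons _ _)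

/-- TREE -/
theorem tree : TreeStatement := by
  intro N n X Y hfin hcard
  by_contra hcon
  push Not at hcon
  have hbad : ∀ s : List ℕ, ∃ i : ℕ, ∀ σ : List ℕ, (i :: s) <:+ σ →
      ∃ z ∈ X σ, z ∈ Y (i :: s) ∧ ∀ t : List ℕ, t ≠ [] → t <:+ s → z ∉ Y t := by
    intro s
    have hs := hcon s
    obtain ⟨i, hi⟩ := hs.infinite_compl.nonempty
    refine ⟨i, fun σ hσ => ?_⟩
    by_contra hno
    apply hi
    refine ⟨σ, hσ, fun z hz hzY => ?_⟩
    by_contra hno2
    exact hno ⟨z, hz, hzY, fun t ht hts hzt => hno2 ⟨t, ht, hts, hzt⟩⟩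
  choose g hg using hbad
  have hz : ∀ k : Fin n, ∃ z ∈ X (path g n), z ∈ Y (path g (k + 1)) ∧
      ∀ t : List ℕ, t ≠ [] → t <:+ path g k → z ∉ Y t := by
    intro k
    exact hg (path g k) (path g n) (path_suffix g (show (k : ℕ) + 1 ≤ n from k.2))
  choose z hzX hzY hzn using hz
  have hne : ∀ i j : Fin n, i < j → z i ≠ z j := by
    intro i j hij heq
    refine hzn j (path g (i + 1)) (by simp [path]) (path_suffix g (Nat.succ_le_of_lt hij)) ?_
    rw [← heq]
    exact hzY i
  have hinj : Function.Injective z := by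
    intro i j hij
    rcases lt_trichotomy i j with h | h | h
    · exact absurd hij (hne i j h)
    · exact h
    · exact absurd hij.symm (hne j i h)
  have hsub : Set.range z ⊆ X (path g n) := by
    rintro _ ⟨k, rfl⟩
    exact hzX k
  have h1 := Set.ncard_le_ncard hsub (hfin _)
  rw [Set.ncard_range_of_injective hinj] at h1
  simp only [Nat.card_eq_fintype_card, Fintype.card_fin] at h1
  exact absurd (hcard (path g n)) (not_lt.mpr h1)

end Pool.Agent.SFC.H7
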